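import Pool.Agent.H91.FloorMean

set_option autoImplicit false

open H91.FloorMean in
theorem Pool.Agent.Results.MP_a2bf4b_an.FloorMean.result :
    ∃ (I : Set ℝ) (G : I → I → I) (J : Set ℝ),
    I.OrdConnected ∧ I.Nontrivial ∧
    (∀ x y u v, G (G x y) (G u v) = G (G x u) (G y v)) ∧
    (∀ x y, G x y = G y x) ∧
    (∀ y, StrictMono (fun x => G x y)) ∧ (∀ x, StrictMono (fun y => G x y)) ∧
    J.OrdConnected ∧ J.Nontrivial ∧ J ⊂ I ∧
    (∀ x : I, (x : ℝ) ∈ J → G x x = x) ∧ ∃ x₀ : I, G x₀ x₀ ≠ x₀ :=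
  main
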